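import Pool.Agent.H48.FR.Targets

set_option autoImplicit false

namespace Pool.Agent.H99.FR

open Pool.Agent.H48.FR Finset

section

variable {𝕜 : Type} [NormedDivisionRing 𝕜] [StarRing 𝕜] [NormedAlgebra ℝ 𝕜] [PF 𝕜]

def W (m : ℕ) (G : ℝ → 𝕜) : Prop :=
  ∃ a : ℕ → 𝕜, ∀ t : ℝ, G t =
    ∑ k ∈ range (m + 1), (Real.cos t ^ (m - k) * Real.sin t ^ k) • a k

omit [StarRing 𝕜] [PF 𝕜] in
lemma W_mono (m i j : ℕ) (h : i + j = m) (a : 𝕜) :
    W m (fun t => (Real.cos t ^ i * Real.sin t ^ j) • a) := by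
  refine ⟨fun k => if k = j then a else 0, fun t => ?_⟩
  rw [Finset.sum_eq_single j]
  · have : m - j = i := by omega
    simp only [if_true, this]
  · intro b _ hb
    simp only [if_neg hb, smul_zero]
  · intro hj
    exact absurd (mem_range.2 (by omega)) hj

omit [StarRing 𝕜] [PF 𝕜] in
lemma W_add (m : ℕ) (F G : ℝ → 𝕜) (hF : W m F) (hG : W m G) : W m (fun t => F t + G t) := by
  obtain ⟨a, ha⟩ := hF
  obtain ⟨b, hb⟩ := hG
  refine ⟨fun k => a k + b k, fun t => ?_⟩
  simp only [ha, hb, ← sum_add_distrib]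
  exact sum_congr rfl fun k _ => (smul_add _ _ _).symm

omit [StarRing 𝕜] [PF 𝕜] in
lemma W_sum (m n : ℕ) (F : ℕ → ℝ → 𝕜) (hF : ∀ k ∈ range n, W m (F k)) :
    W m (fun t => ∑ k ∈ range n, F k t) := by
  induction n with
  | zero => exact ⟨fun _ => 0, fun t => by simp⟩
  | succ n ih =>
    have h1 := ih fun k hk => hF k (mem_range.2 (by have := mem_range.1 hk; omega))
    have h2 := W_add m _ _ h1 (hF n (mem_range.2 (by omega)))
    simpa only [sum_range_succ] using h2

omit [StarRing 𝕜] [PF 𝕜] in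
lemma W_mul (m : ℕ) (G : ℝ → 𝕜) (hG : W m G) (A B : 𝕜) :
    W (m + 1) (fun t => G t * (rs (Real.cos t) * A + rs (Real.sin t) * B)) := by
  obtain ⟨a, ha⟩ := hG
  have h : (fun t => G t * (rs (Real.cos t) * A + rs (Real.sin t) * B)) =
      fun t => ∑ k ∈ range (m + 1),
        ((Real.cos t ^ (m - k + 1) * Real.sin t ^ k) • (a k * A) +
          (Real.cos t ^ (m - k) * Real.sin t ^ (k + 1)) • (a k * B)) := by
    funext t
    rw [ha t, sum_mul]
    refine sum_congr rfl fun k _ => ?_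
    have e1 : (rs (Real.cos t) : 𝕜) * A = Real.cos t • A := by
      unfold rs
      rw [Algebra.algebraMap_eq_smul_one, smul_mul_assoc, one_mul]
    have e2 : (rs (Real.sin t) : 𝕜) * B = Real.sin t • B := by
      unfold rs
      rw [Algebra.algebraMap_eq_smul_one, smul_mul_assoc, one_mul]
    rw [e1, e2, mul_add, smul_mul_smul_comm, smul_mul_smul_comm]
    congr 2 <;> ring
  rw [h]
  refine W_sum _ _ _ fun k hk => ?_
  have hk' := mem_range.1 hk
  exact W_add _ _ _ (W_mono _ _ _ (by omega) _) (W_mono _ _ _ (by omega) _)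

omit [StarRing 𝕜] [PF 𝕜] in
lemma W_two (m : ℕ) (G : ℝ → 𝕜) (hG : W m G) : W (m + 2) G := by
  obtain ⟨a, ha⟩ := hG
  have h : G = fun t => ∑ k ∈ range (m + 1),
        ((Real.cos t ^ (m - k + 2) * Real.sin t ^ k) • a k +
          (Real.cos t ^ (m - k) * Real.sin t ^ (k + 2)) • a k) := by
    funext t
    rw [ha t]
    refine sum_congr rfl fun k _ => ?_
    rw [← add_smul]
    congr 1
    have := Real.cos_sq_add_sin_sq t
    calc Real.cos t ^ (m - k) * Real.sin t ^ k
        = Real.cos t ^ (m - k) * Real.sin t ^ k * (Real.cos t ^ 2 + Real.sin t ^ 2) := by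
          rw [this, mul_one]
      _ = _ := by ring
  rw [h]
  refine W_sum _ _ _ fun k hk => ?_
  have hk' := mem_range.1 hk
  exact W_add _ _ _ (W_mono _ _ _ (by omega) _) (W_mono _ _ _ (by omega) _)

omit [StarRing 𝕜] [PF 𝕜] in
lemma W_pow (A B : 𝕜) (m : ℕ) :
    W m (fun t => (rs (Real.cos t) * A + rs (Real.sin t) * B) ^ m) := by
  induction m with
  | zero => exact ⟨fun _ => 1, fun t => by simp⟩
  | succ m ih =>
    have := W_mul m _ ih A B
    simpa only [pow_succ] using this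

omit [StarRing 𝕜] [PF 𝕜] in
lemma W_more (m i : ℕ) (G : ℝ → 𝕜) (hG : W m G) : W (m + 2 * i) G := by
  induction i with
  | zero => exact hG
  | succ i ih => exact W_two _ _ ih

end

theorem wc : T_WC := by
  intro 𝕜 _ _ _ _ A B m i
  obtain ⟨a, ha⟩ := W_more m i _ (W_pow A B m)
  refine ⟨fun k => re (a k), fun θ => ?_⟩
  have h := ha θ
  simp only at h
  rw [h, re_sum]
  unfold tp
  refine sum_congr rfl fun k _ => ?_
  rw [re_smul, mul_comm]

end Pool.Agent.H99.FR
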